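import Pool.Agent.Y167.SSep.LCA

/-!
# MP_67c6ba_gt, Q1 and Q2: which locally compact groups are S-separable

The starting library shows that the real line is not S-separable, which answers Q1 and Q2. Known is
that a topological group is S-separable if it has a separable compact subgroup with countable
quotient. Here it is shown that this sufficient condition is necessary for a large class of locally
compact groups: the groups with an open subgroup of countable index which is topologically
isomorphic to a closed subgroup of `E × K`, with `E` a finite dimensional real vector space and `K`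
a compact metrizable group. By the structure theorem for locally compact abelian groups (not used
here) this class contains all separable metrizable locally compact abelian groups; it also contains
many groups that are not abelian. For these groups:

* `G` is S-separable iff it has a compact open subgroup iff it has a compact subgroup with
  countable quotient;
* if `G` is connected, it is S-separable iff it is compact.

Also, no nonzero Hausdorff real topological vector space (separable Banach spaces, for example) is
S-separable; a topological group with a closed subgroup that has a continuous homomorphism onto the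
real line is not S-separable; and `GL_n(ℝ)`, `n ≥ 1`, and `SL_n(ℝ)`, `n ≥ 2`, are not S-separable.

Idea: a closed subgroup of a finite dimensional vector space is discrete or contains a line, and
S-separability passes to closed subgroups and continuous homomorphic images.
-/

set_option autoImplicit false

open TopologicalSpace Set Topology Pool.Agent.Y167.SSep

theorem Pool.Agent.Results.MP_67c6ba_gt.CompactOpenSubgroup.result :
    -- Q1: the real line is not S-separable (even with an abelian group `H`)
    (∃ (H : Type) (_ : AddCommGroup H) (_ : TopologicalSpace H),
      IsTopologicalAddGroup H ∧ T2Space H ∧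
      (∀ K : AddSubgroup H, IsClosed (K : Set H) → SeparableSpace K) ∧
      ∃ L : AddSubgroup (ℝ × H), IsClosed (L : Set (ℝ × H)) ∧ ¬ SeparableSpace L) ∧
    ¬ SSeparable (Multiplicative ℝ) ∧
    -- Q2: a separable metrizable group need not be S-separable
    (∃ (G : Type) (_ : Group G) (_ : TopologicalSpace G), IsTopologicalGroup G ∧
      SeparableSpace G ∧ MetrizableSpace G ∧ ¬ SSeparable G) ∧
    -- the classification
    (∀ (E : Type) [NormedAddCommGroup E] [NormedSpace ℝ E] [FiniteDimensional ℝ E]
      (K : Type) [Group K] [TopologicalSpace K] [IsTopologicalGroup K] [CompactSpace K]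
      [SecondCountableTopology K] [T2Space K]
      (G : Type) [Group G] [TopologicalSpace G] [IsTopologicalGroup G]
      (U : Subgroup G) [Countable (G ⧸ U)] (j : U →* Multiplicative E × K),
      IsOpen (U : Set G) → IsClosedEmbedding j →
      (SSeparable G ↔ ∃ N : Subgroup G, IsCompact (N : Set G) ∧ IsOpen (N : Set G)) ∧
      (SSeparable G ↔ ∃ N : Subgroup G, IsCompact (N : Set G) ∧ Countable (G ⧸ N))) ∧
    -- the connected case
    (∀ (E : Type) [NormedAddCommGroup E] [NormedSpace ℝ E] [FiniteDimensional ℝ E]
      (K : Type) [Group K] [TopologicalSpace K] [IsTopologicalGroup K] [CompactSpace K]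
      [SecondCountableTopology K] [T2Space K] (G : Subgroup (Multiplicative E × K)),
      IsClosed (G : Set (Multiplicative E × K)) → ConnectedSpace G →
      (SSeparable G ↔ CompactSpace G)) ∧
    -- topological vector spaces
    (∀ (E : Type) [AddCommGroup E] [TopologicalSpace E] [IsTopologicalAddGroup E] [Module ℝ E]
      [ContinuousSMul ℝ E] [T2Space E] [Nontrivial E], ¬ SSeparable (Multiplicative E)) ∧
    -- groups with a closed subgroup which maps onto the real line
    (∀ (G : Type) [Group G] [TopologicalSpace G] (S : Subgroup G) (χ : S →* Multiplicative ℝ),
      IsClosed (S : Set G) → Continuous χ → Function.Surjective χ → ¬ SSeparable G) ∧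
    -- linear groups
    (∀ n : ℕ, 1 ≤ n → ¬ SSeparable (Matrix.GeneralLinearGroup (Fin n) ℝ)) ∧
    (∀ n : ℕ, 2 ≤ n → ¬ SSeparable (Matrix.SpecialLinearGroup (Fin n) ℝ)) := by
  refine ⟨Pool.Agent.Helper332.RealLine.real_not_S_separable, not_sSep_real, ?_, ?_, ?_, ?_, ?_,
    not_sSep_GL, not_sSep_SL⟩
  · exact ⟨Multiplicative ℝ, inferInstance, inferInstance, inferInstance,
      inferInstanceAs (SeparableSpace ℝ), inferInstanceAs (MetrizableSpace ℝ), not_sSep_real⟩
  · intro E _ _ _ K _ _ _ _ _ _ G _ _ _ U _ j hU hj
    exact sSep_iff_of_open U hU j hj
  · intro E _ _ _ K _ _ _ _ _ _ G hG hc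
    exact sSep_iff_compact G hG
  · intro E _ _ _ _ _ _ _
    exact not_sSep_tvs E
  · intro G _ _ S χ hS hχ hχs
    exact not_sSep_of_hom S hS χ hχ hχs
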